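import Mathlib

/-!
# The `r`-dynamic chromatic number is not `O(tw + r)`

For every `C` there are a finite graph `G` and `r ≥ 1` with `χ_r(G) > C (tw(G) + r)`.

The graph has `t` groups of `t ^ 2` points each, and for every pair `(i, j)` of groups a hub adjacent
to all the points of the groups `i` and `j`. Put `r = 2 t ^ 2`. The hubs have degree at most `r`, so
that in an `r`-dynamic colouring any two points have distinct colours; there are `t ^ 3` points. The
`t ^ 2` hubs together with one point at a time are the bags of a tree decomposition of width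
at most `t ^ 2`.
-/

set_option autoImplicit false

namespace Pool.Agent.Results.MP_96dc1b_co.NotLinear

open SimpleGraph

/-- `φ` is an `r`-dynamic colouring: it is proper, and every vertex `v` sees at least
`min r (deg v)` colours on its neighbours. -/
def IsDynamic {V : Type*} (G : SimpleGraph V) (r : ℕ) {k : ℕ} (φ : V → Fin k) : Prop :=
  (∀ u v, G.Adj u v → φ u ≠ φ v) ∧
  ∀ v, min r (G.neighborSet v).ncard ≤ (φ '' G.neighborSet v).ncard

/-- the `r`-dynamic chromatic number `χ_r(G)` -/
noncomputable def dynChromaticNumber {V : Type*} (G : SimpleGraph V) (r : ℕ) : ℕ :=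
  sInf {k | ∃ φ : V → Fin k, IsDynamic G r φ}

/-- a tree decomposition of `G` -/
structure TreeDecomp {V : Type} (G : SimpleGraph V) where
  /-- the nodes of the tree -/
  ι : Type
  /-- the tree -/
  T : SimpleGraph ι
  isTree : T.IsTree
  /-- the bags -/
  bag : ι → Set V
  finite_bag : ∀ i, (bag i).Finite
  vertex_cover : ∀ v, ∃ i, v ∈ bag i
  edge_cover : ∀ u v, G.Adj u v → ∃ i, u ∈ bag i ∧ v ∈ bag i
  connected : ∀ v, (T.induce {i | v ∈ bag i}).Preconnected

/-- the treewidth: the least `w` such that there is a tree decomposition all of whose bags have at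
most `w + 1` elements -/
noncomputable def treewidth {V : Type} (G : SimpleGraph V) : ℕ :=
  sInf {w | ∃ D : TreeDecomp G, ∀ i, (D.bag i).ncard ≤ w + 1}

/-! ### The graph -/

/-- the hubs `(i, j)` and the points `(a, c)`, where `a` is the group -/
abbrev Vx (t : ℕ) := (Fin t × Fin t) ⊕ (Fin t × Fin (t ^ 2))

/-- the graph -/
def Gr (t : ℕ) : SimpleGraph (Vx t) where
  Adj x y := match x, y with
    | Sum.inl h, Sum.inr p => p.1 = h.1 ∨ p.1 = h.2
    | Sum.inr p, Sum.inl h => p.1 = h.1 ∨ p.1 = h.2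
    | _, _ => False
  symm := ⟨fun x y h => by
    rcases x with x | x <;> rcases y with y | y
    · exact h
    · exact h
    · exact h
    · exact h⟩
  loopless := ⟨fun x h => by
    rcases x with x | x
    · exact h
    · exact h⟩

theorem adj_hp {t : ℕ} (h : Fin t × Fin t) (p : Fin t × Fin (t ^ 2)) :
    (Gr t).Adj (Sum.inl h) (Sum.inr p) ↔ (p.1 = h.1 ∨ p.1 = h.2) := Iff.rfl

/-- the tree decomposition -/
def decomp (t : ℕ) : TreeDecomp (Gr t) where
  ι := Option (Fin t × Fin (t ^ 2))
  T := starGraph none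
  isTree := isTree_starGraph none
  bag i := Set.range Sum.inl ∪ {x | ∃ p, i = some p ∧ x = Sum.inr p}
  finite_bag _ := Set.toFinite _
  vertex_cover x := by
    rcases x with x | x
    · exact ⟨none, Or.inl ⟨x, rfl⟩⟩
    · exact ⟨some x, Or.inr ⟨x, rfl, rfl⟩⟩
  edge_cover x y h := by
    rcases x with x | x <;> rcases y with y | y
    · exact h.elim
    · exact ⟨some y, Or.inl ⟨x, rfl⟩, Or.inr ⟨y, rfl, rfl⟩⟩
    · exact ⟨some x, Or.inr ⟨x, rfl, rfl⟩, Or.inl ⟨y, rfl⟩⟩
    · exact h.elim
  connected x := by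
    rcases x with x | x
    · have hall : ∀ i, i ∈ {i : Option (Fin t × Fin (t ^ 2)) | (Sum.inl x : Vx t) ∈
          Set.range Sum.inl ∪ {x | ∃ p, i = some p ∧ x = Sum.inr p}} := fun i => Or.inl ⟨x, rfl⟩
      have hc : ∀ i : {i : Option (Fin t × Fin (t ^ 2)) | (Sum.inl x : Vx t) ∈
          Set.range Sum.inl ∪ {x | ∃ p, i = some p ∧ x = Sum.inr p}},
          ((starGraph (none : Option (Fin t × Fin (t ^ 2)))).induce _).Reachable i
            ⟨none, hall none⟩ := by
        rintro ⟨i, hi⟩
        by_cases h : none = i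
        · subst h; exact Reachable.refl _
        · apply Adj.reachable
          exact starGraph_center_adj' h
      intro i j
      exact (hc i).trans (hc j).symm
    · rintro ⟨i, hi⟩ ⟨j, hj⟩
      have h1 : i = some x := by
        rcases hi with ⟨y, hy⟩ | ⟨p, h1, h2⟩
        · exact absurd hy (by simp)
        · rw [h1]; rw [Sum.inr.injEq] at h2; rw [h2]
      have h2 : j = some x := by
        rcases hj with ⟨y, hy⟩ | ⟨p, h1, h2⟩
        · exact absurd hy (by simp)
        · rw [h1]; rw [Sum.inr.injEq] at h2; rw [h2]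
      subst h1 h2
      exact Reachable.refl _

theorem treewidth_le (t : ℕ) : treewidth (Gr t) ≤ t ^ 2 := by
  apply Nat.sInf_le
  refine ⟨decomp t, fun i => ?_⟩
  refine (Set.ncard_union_le _ _).trans ?_
  have h1 : (Set.range (Sum.inl : Fin t × Fin t → Vx t)).ncard = t ^ 2 := by
    rw [← Set.image_univ, Set.ncard_image_of_injective _ Sum.inl_injective, Set.ncard_univ]
    simp [sq]
  have h2 : ({x | ∃ p, i = some p ∧ x = Sum.inr p} : Set (Vx t)).ncard ≤ 1 := by
    rw [Set.ncard_le_one]
    rintro a ⟨p, hp, rfl⟩ b ⟨q, hq, rfl⟩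
    rw [hp] at hq
    rw [Option.some.inj hq]
  rw [h1]
  exact Nat.add_le_add_left h2 _

theorem ncard_neighbors (t : ℕ) (h : Fin t × Fin t) :
    ((Gr t).neighborSet (Sum.inl h)).ncard ≤ 2 * t ^ 2 := by
  have hsub : (Gr t).neighborSet (Sum.inl h) ⊆
      (fun c : Fin (t ^ 2) => (Sum.inr (h.1, c) : Vx t)) '' Set.univ ∪
      (fun c : Fin (t ^ 2) => (Sum.inr (h.2, c) : Vx t)) '' Set.univ := by
    rintro (x | ⟨a, c⟩) hx
    · exact hx.elim
    · rcases hx with hx | hx
      · left; exact ⟨c, trivial, by rw [← hx]⟩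
      · right; exact ⟨c, trivial, by rw [← hx]⟩
  refine (Set.ncard_le_ncard hsub (Set.toFinite _)).trans ((Set.ncard_union_le _ _).trans ?_)
  have h1 := Set.ncard_image_le (f := fun c : Fin (t ^ 2) => (Sum.inr (h.1, c) : Vx t))
    (s := Set.univ) (Set.toFinite _)
  have h2 := Set.ncard_image_le (f := fun c : Fin (t ^ 2) => (Sum.inr (h.2, c) : Vx t))
    (s := Set.univ) (Set.toFinite _)
  rw [Set.ncard_univ, Nat.card_eq_fintype_card, Fintype.card_fin] at h1 h2
  omega

theorem le_of_dynamic (t k : ℕ) (φ : Vx t → Fin k) (hφ : IsDynamic (Gr t) (2 * t ^ 2) φ) :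
    t ^ 3 ≤ k := by
  have hinj : Function.Injective (fun p : Fin t × Fin (t ^ 2) => φ (Sum.inr p)) := by
    intro p q hpq
    have h1 := hφ.2 (Sum.inl (p.1, q.1))
    rw [min_eq_right (ncard_neighbors t _)] at h1
    have h2 : Set.InjOn φ ((Gr t).neighborSet (Sum.inl (p.1, q.1))) := by
      apply Set.injOn_of_ncard_image_eq _ (Set.toFinite _)
      exact le_antisymm (Set.ncard_image_le (Set.toFinite _)) h1
    have h3 : (Sum.inr p : Vx t) = Sum.inr q := h2 (Or.inl rfl) (Or.inr rfl) hpq
    exact Sum.inr_injective h3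
  have := Fintype.card_le_of_injective _ hinj
  rw [Fintype.card_prod, Fintype.card_fin, Fintype.card_fin, Fintype.card_fin] at this
  calc t ^ 3 = t * t ^ 2 := by ring
    _ ≤ k := this

/-- **`χ_r` is not `O(tw + r)`.** For every `C` there are a finite graph `G` and an integer `r ≥ 1`
with `χ_r(G) > C (tw(G) + r)`. -/
theorem result : ∀ C : ℕ, ∃ (V : Type) (_ : Fintype V) (G : SimpleGraph V) (r : ℕ), 1 ≤ r ∧
    C * (treewidth G + r) < dynChromaticNumber G r := by
  intro C
  refine ⟨Vx (3 * C + 1), inferInstance, Gr (3 * C + 1), 2 * (3 * C + 1) ^ 2, ?_, ?_⟩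
  · have : 0 < (3 * C + 1) ^ 2 := by positivity
    omega
  · have hne : {k | ∃ φ : Vx (3 * C + 1) → Fin k,
        IsDynamic (Gr (3 * C + 1)) (2 * (3 * C + 1) ^ 2) φ}.Nonempty := by
      let e := Fintype.equivFin (Vx (3 * C + 1))
      refine ⟨_, e, ?_, ?_⟩
      · intro u v huv h
        exact huv.ne (e.injective h)
      · intro v
        rw [Set.ncard_image_of_injective _ e.injective]
        exact min_le_right _ _
    obtain ⟨φ, hφ⟩ := Nat.sInf_mem hne
    have h1 := le_of_dynamic _ _ φ hφ
    refine lt_of_lt_of_le ?_ h1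
    have h2 := treewidth_le (3 * C + 1)
    calc C * (treewidth (Gr (3 * C + 1)) + 2 * (3 * C + 1) ^ 2)
        ≤ C * ((3 * C + 1) ^ 2 + 2 * (3 * C + 1) ^ 2) := by gcongr
      _ = (3 * C) * (3 * C + 1) ^ 2 := by ring
      _ < (3 * C + 1) * (3 * C + 1) ^ 2 := by
          apply Nat.mul_lt_mul_of_pos_right (Nat.lt_succ_self _) (by positivity)
      _ = (3 * C + 1) ^ 3 := by ring

end Pool.Agent.Results.MP_96dc1b_co.NotLinear
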